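import Mathlib

set_option autoImplicit false

/-!
# MP_a80f1a_gt: the surface area inequality fails in every dimension `d ≥ 3`

`K` is the bipyramid `‖p‖_∞ + |z| ≤ 1` over the cube, `p ∈ ℝ^(d-1)`, `z ∈ ℝ`, `r = 1`, `x₀ = 0`, and the
other points are `(0, 1)` and the `2^(d-1)` points `(ε, 0)`, `ε ∈ {±1}^(d-1)`. The `K`-surface area of a
union of translates counts the ends of the intervals in which the lines parallel to the `z`-axis meet
it. For `2K` there are two over each point of the cube `[-2,2]^(d-1)`. The translates with the centres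
`(ε, 0)` give at least two over each such point, and the translate with the centre `(0, 1)` gives
additional ones over a part of the cube `[-1,1]^(d-1)`, if `d ≥ 3`.
-/

open Set Metric Pointwise MeasureTheory Filter Topology

namespace Pool.Agent.Results.MP_a80f1a_gt.AllDimensions

section Definitions

variable {E : Type} [AddCommGroup E] [Module ℝ E] [MeasureSpace E]

/-- `(λ(A ⊕ δK) - λ(A)) / δ`, as an extended real number. -/
noncomputable def quot (K A : Set E) (δ : ℝ) : EReal :=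
  ((volume.real (A + δ • K) - volume.real A) / δ : ℝ)

/-- Lower `K`-surface area. -/
noncomputable def lower (K A : Set E) : EReal := liminf (quot K A) (𝓝[>] 0)

/-- Upper `K`-surface area. -/
noncomputable def upper (K A : Set E) : EReal := limsup (quot K A) (𝓝[>] 0)

end Definitions

/-- Base space times height. -/
abbrev E (n : ℕ) : Type := (Fin n → ℝ) × ℝ

/-- The bipyramid. -/
def B (n : ℕ) (r : ℝ) : Set (E n) := {w | ‖w.1‖ + |w.2| ≤ r}

/-- A sign vector. -/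
noncomputable def sgn {n : ℕ} (s : Fin n → Bool) : Fin n → ℝ := fun j => if s j then 1 else -1

/-- The centres. -/
noncomputable def A (n : ℕ) : Finset (E n) :=
  {0, (0, 1)} ∪ Finset.univ.image (fun s : Fin n → Bool => (sgn s, (0 : ℝ)))

theorem mem_A {n : ℕ} {c : E n} : c ∈ A n ↔ c = 0 ∨ c = (0, 1) ∨ ∃ s : Fin n → Bool, (sgn s, 0) = c := by
  simp [A]

noncomputable def h {n : ℕ} (p : Fin n → ℝ) : ℝ := max (1 - ‖p‖) (1 - ‖fun j => |p j| - 1‖)

variable {n : ℕ}

lemma smul_B {r : ℝ} (hr : 0 < r) : r • B n 1 = B n r := by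
  ext w
  rw [mem_smul_set_iff_inv_smul_mem₀ hr.ne']
  simp only [B, mem_ofPred_eq, Prod.smul_fst, Prod.smul_snd, norm_smul, smul_eq_mul, abs_mul,
    Real.norm_eq_abs, abs_of_pos (inv_pos.2 hr), ← mul_add]
  rw [inv_mul_le_iff₀ hr, mul_one]

lemma conv : Convex ℝ (B n 1) := fun x hx y hy a b ha hb e => by
  have := norm_add_le (a • x.1) (b • y.1)
  have := abs_add_le (a * x.2) (b * y.2)
  simp only [B, mem_ofPred_eq, Prod.fst_add, Prod.snd_add, Prod.smul_fst, Prod.smul_snd,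
    smul_eq_mul, norm_smul, abs_mul, Real.norm_eq_abs, abs_of_nonneg ha, abs_of_nonneg hb] at *
  nlinarith

lemma bdd (r : ℝ) : Bornology.IsBounded (B n r) :=
  (isBounded_closedBall (x := 0) (r := r)).subset fun w hw => by
    rw [mem_closedBall_zero_iff, Prod.norm_def, max_le_iff, Real.norm_eq_abs]
    exact ⟨by linarith [abs_nonneg w.2, show _ ≤ r from hw],
      by linarith [norm_nonneg w.1, show _ ≤ r from hw]⟩

lemma add_B {r s : ℝ} (hr : 0 < r) (hs : 0 < s) : B n r + s • B n 1 = B n (r + s) := by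
  rw [← smul_B hr, ← conv.add_smul hr.le hs.le, smul_B (by positivity)]

lemma mem_U {r : ℝ} {w : E n} :
    w ∈ (A n : Set (E n)) + B n r ↔ ∃ c ∈ A n, ‖w.1 - c.1‖ + |w.2 - c.2| ≤ r :=
  ⟨fun ⟨c, hc, x, hx, e⟩ => ⟨c, hc, by simpa [← e, B] using hx⟩,
    fun ⟨c, hc, hx⟩ => ⟨c, hc, w - c, hx, by simp⟩⟩

lemma abs_sgn (s : Fin n → Bool) (j : Fin n) : |sgn s j| = 1 := by
  unfold sgn
  split_ifs <;> simp

lemma norm_sgn_le (s : Fin n → Bool) (p : Fin n → ℝ) : ‖fun j => |p j| - 1‖ ≤ ‖p - sgn s‖ := by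
  refine (pi_norm_le_iff_of_nonneg (norm_nonneg _)).2 fun j => ?_
  refine le_trans ?_ (norm_le_pi_norm (p - sgn s) j)
  rw [Real.norm_eq_abs, Real.norm_eq_abs, Pi.sub_apply, ← abs_sgn s j]
  exact abs_abs_sub_abs_le_abs_sub _ _

lemma exists_sgn (p : Fin n → ℝ) : ∃ s : Fin n → Bool, ‖p - sgn s‖ = ‖fun j => |p j| - 1‖ := by
  refine ⟨fun j => decide (0 ≤ p j), le_antisymm ?_ (norm_sgn_le _ _)⟩
  refine (pi_norm_le_iff_of_nonneg (norm_nonneg _)).2 fun j => ?_
  refine le_trans (le_of_eq ?_) (norm_le_pi_norm (fun j => |p j| - 1) j)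
  rw [Real.norm_eq_abs, Real.norm_eq_abs, Pi.sub_apply]
  unfold sgn
  by_cases hj : 0 ≤ p j
  · simp [hj, abs_of_nonneg hj]
  · push Not at hj
    simp only [not_le.2 hj, decide_false, Bool.false_eq_true, if_false]
    rw [abs_of_neg hj, ← abs_neg]
    ring_nf

lemma F1 {w : E n} (hw : w ∈ (A n : Set (E n)) + B n 1) :
    |w.2| ≤ h w.1 ∨ ‖w.1‖ + |w.2 - 1| ≤ 1 := by
  obtain ⟨c, hc, e⟩ := mem_U.1 hw
  rcases mem_A.1 hc with rfl | rfl | ⟨s, rfl⟩
  · exact .inl (le_max_of_le_left (by simp at e; linarith))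
  · exact .inr (by simpa using e)
  · refine .inl (le_max_of_le_right ?_)
    have := norm_sgn_le s w.1
    simp only [sub_zero] at e
    linarith

lemma F2 {w : E n} {δ : ℝ} (hw : |w.2| ≤ h w.1 + δ) : w ∈ (A n : Set (E n)) + B n (1 + δ) := by
  rcases le_max_iff.1 (sub_le_iff_le_add.2 hw) with e | e
  · exact mem_U.2 ⟨0, mem_A.2 (.inl rfl), by simp; linarith⟩
  obtain ⟨s, hs⟩ := exists_sgn w.1
  refine mem_U.2 ⟨(sgn s, 0), mem_A.2 (.inr (.inr ⟨s, rfl⟩)), ?_⟩
  simp only [sub_zero]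
  rw [hs]
  linarith

lemma h_nonneg {p : Fin n → ℝ} (hp : p ∈ closedBall (0 : Fin n → ℝ) 2) : 0 ≤ h p := by
  rw [mem_closedBall_zero_iff] at hp
  refine le_max_of_le_right (sub_nonneg.2 ?_)
  refine (pi_norm_le_iff_of_nonneg zero_le_one).2 fun j => ?_
  have := (norm_le_pi_norm p j).trans hp
  rw [Real.norm_eq_abs] at this ⊢
  rw [abs_le]
  constructor <;> linarith [abs_nonneg (p j)]

lemma h_le (p : Fin n → ℝ) : h p ≤ 1 := max_le (by simp) (by simp)

def Rg (f : (Fin n → ℝ) → ℝ) (s : Set (Fin n → ℝ)) (a b : ℝ) : Set (E n) :=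
  {w | w.1 ∈ s ∧ f w.1 + a < w.2 ∧ w.2 < f w.1 + b}

lemma reg {f : (Fin n → ℝ) → ℝ} (hf : Measurable f) {s : Set (Fin n → ℝ)} (hs : MeasurableSet s)
    (a b : ℝ) :
    MeasurableSet (Rg f s a b) ∧ volume (Rg f s a b) = ENNReal.ofReal (b - a) * volume s :=
  ⟨measurableSet_regionBetween (hf.add_const a) (hf.add_const b) hs, by
    refine (volume_regionBetween_eq_lintegral' (hf.add_const a) (hf.add_const b) hs).trans ?_
    simp⟩

lemma volQ {r : ℝ} (hr : 0 ≤ r) :
    volume (closedBall (0 : Fin n → ℝ) r) = ENNReal.ofReal ((2 * r) ^ n) := by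
  rw [Real.volume_pi_closedBall _ hr, Fintype.card_fin]

/-- The part of the base where there are additional intervals. -/
def G (n : ℕ) : Set (Fin (n + 2) → ℝ) :=
  Icc (fun j => if j = 0 then 7 / 10 else 0) (fun j => if j = 0 then 1 else 1 / 2)

lemma volG (n : ℕ) : ∃ g : ℝ, 0 < g ∧ volume (G n) = ENNReal.ofReal g := by
  refine ⟨∏ j : Fin (n + 2), ((if j = 0 then 1 else 1 / 2 : ℝ) - if j = 0 then 7 / 10 else 0),
    Finset.prod_pos fun j _ => ?_, ?_⟩
  · split_ifs <;> norm_num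
  · rw [G, Real.volume_Icc_pi, ENNReal.ofReal_prod_of_nonneg]
    intro j _
    split_ifs <;> norm_num

lemma hG {n : ℕ} (p : Fin (n + 2) → ℝ) (hp : p ∈ G n) : h p ≤ 1 / 2 ∧ 7 / 10 ≤ ‖p‖ ∧ ‖p‖ ≤ 1 := by
  obtain ⟨h1, h2⟩ := hp
  have a0 := h1 0
  have b0 := h2 0
  have a1 := h1 1
  have b1 := h2 1
  simp only [if_true, Fin.one_eq_zero_iff] at a0 b0 a1 b1
  have e10 : ¬ (n + 2 = 1) := by omega
  simp only [e10, if_false] at a1 b1
  have n0 := norm_le_pi_norm p 0
  have n1 := norm_le_pi_norm (fun j => |p j| - 1) 1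
  rw [Real.norm_eq_abs] at n0 n1
  refine ⟨max_le ?_ ?_, ?_, ?_⟩
  · linarith [le_abs_self (p 0)]
  · rw [abs_of_nonneg a1] at n1
    linarith [neg_abs_le (p 1 - 1)]
  · linarith [le_abs_self (p 0)]
  · refine (pi_norm_le_iff_of_nonneg zero_le_one).2 fun j => ?_
    have aj : (if j = 0 then (7 / 10 : ℝ) else 0) ≤ p j := h1 j
    have bj : p j ≤ (if j = 0 then (1 : ℝ) else 1 / 2) := h2 j
    rw [Real.norm_eq_abs, abs_le]
    split_ifs at aj bj <;> constructor <;> linarith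

lemma fin (r : ℝ) : volume ((A n : Set (E n)) + B n r) ≠ ⊤ :=
  (((A n).finite_toSet.isBounded.add (bdd r)).measure_lt_top).ne

lemma low {n : ℕ} {g : ℝ} (hg : 0 < g) (hgv : volume (G n) = ENNReal.ofReal g) {δ : ℝ} (h0 : 0 < δ)
    (h1 : δ ≤ 1 / 5) :
    ((2 * 4 ^ (n + 2) + g : ℝ) : EReal) ≤ quot (B (n + 2) 1) (A (n + 2) + B (n + 2) 1) δ := by
  have mh : Measurable (h (n := n + 2)) := by unfold h; fun_prop
  let t : (Fin (n + 2) → ℝ) → ℝ := fun p => if ‖p‖ ≤ 1 then 2 - ‖p‖ else h p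
  have mt : Measurable t := Measurable.ite (measurableSet_le (by fun_prop) (by fun_prop))
    (by fun_prop) mh
  obtain ⟨m1, v1⟩ := reg mh.neg
    (measurableSet_closedBall (x := (0 : Fin (n + 2) → ℝ)) (ε := 2)) (-δ) 0
  obtain ⟨m2, v2⟩ := reg mt
    (measurableSet_closedBall (x := (0 : Fin (n + 2) → ℝ)) (ε := 2)) 0 δ
  obtain ⟨m3, v3⟩ := reg mh (s := G n) measurableSet_Icc 0 δ
  set R1 := Rg (-h) _ _ _
  set R2 := Rg t _ _ _
  set R3 := Rg h _ _ _
  rw [volQ zero_le_two] at v1 v2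
  rw [hgv] at v3
  have sub : ((A (n + 2) : Set (E (n + 2))) + B (n + 2) 1) ∪ R1 ∪ R2 ∪ R3 ⊆
      A (n + 2) + B (n + 2) (1 + δ) := by
    rintro w (((a | ⟨a, b, c⟩) | ⟨a, b, c⟩) | ⟨a, b, c⟩)
    · obtain ⟨c, p, q⟩ := mem_U.1 a
      exact mem_U.2 ⟨c, p, by linarith⟩
    · exact F2 (abs_le.2 ⟨by simp at b; linarith, by simp at c; linarith [h_nonneg a]⟩)
    · simp only [t] at b c
      split_ifs at b c with d
      · exact mem_U.2 ⟨(0, 1), mem_A.2 (.inr (.inl rfl)), by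
          rw [abs_of_nonneg (by linarith)]; simp; linarith⟩
      · exact F2 (abs_le.2 ⟨by linarith [h_nonneg a], c.le⟩)
    · refine F2 (abs_le.2 ⟨?_, c.le⟩)
      linarith [h_nonneg (p := w.1) (by simp; linarith [hG _ a])]
  have d1 : Disjoint ((A (n + 2) : Set (E (n + 2))) + B (n + 2) 1) R1 :=
    disjoint_left.2 fun w a ⟨b, _, c⟩ => by
      simp at c
      rcases F1 a with e | e
      · linarith [neg_abs_le w.2]
      · linarith [neg_abs_le (w.2 - 1), norm_nonneg w.1, h_nonneg b]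
  have d2 : Disjoint ((A (n + 2) : Set (E (n + 2))) + B (n + 2) 1 ∪ R1) R2 :=
    disjoint_left.2 fun w a ⟨b, c, _⟩ => by
      simp only [t] at c
      rcases a with a | ⟨_, _, a⟩
      · rcases F1 a with e | e <;> split_ifs at c with d <;>
          linarith [le_abs_self w.2, le_abs_self (w.2 - 1), abs_nonneg (w.2 - 1), h_le w.1]
      · simp at a
        split_ifs at c with d <;> linarith [h_nonneg b]
  have d3 : Disjoint ((A (n + 2) : Set (E (n + 2))) + B (n + 2) 1 ∪ R1 ∪ R2) R3 :=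
    disjoint_left.2 fun w a ⟨b, c, d⟩ => by
      obtain ⟨p, q, r⟩ := hG _ b
      rcases a with (a | ⟨s, _, a⟩) | ⟨_, a, _⟩
      · rcases F1 a with e | e <;> linarith [le_abs_self w.2, neg_abs_le (w.2 - 1)]
      · simp at a
        linarith [h_nonneg s]
      · simp only [t, if_pos r] at a
        linarith
  have := measure_mono (μ := volume) sub
  rw [measure_union d3 m3, measure_union d2 m2, measure_union d1 m1, v1, v2, v3,
    ← ENNReal.ofReal_toReal (fin 1), ← ENNReal.ofReal_toReal (fin (1 + δ))] at this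
  simp (disch := positivity) only [sub_zero, sub_neg_eq_add, zero_add, ← ENNReal.ofReal_mul,
    ← ENNReal.ofReal_add] at this
  rw [quot, add_assoc, add_B one_pos h0, EReal.coe_le_coe_iff, le_div_iff₀ h0]
  rw [ENNReal.ofReal_le_ofReal_iff (by positivity)] at this
  simp only [Measure.real]
  norm_num at this ⊢
  linarith

lemma up {δ : ℝ} (h0 : 0 < δ) :
    quot (B n 1) (B n 2) δ ≤ ((2 * (2 * (2 + δ)) ^ n * (1 + 2 * δ) : ℝ) : EReal) := by
  have m : Measurable fun p : Fin n → ℝ => max (2 - ‖p‖) 0 := by fun_prop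
  obtain ⟨-, v1⟩ := reg m (measurableSet_closedBall (x := (0 : Fin n → ℝ)) (ε := 2 + δ))
    (-(δ * δ)) (δ + δ * δ)
  obtain ⟨-, v2⟩ := reg m.neg (measurableSet_closedBall (x := (0 : Fin n → ℝ)) (ε := 2 + δ))
    (-δ - δ * δ) (δ * δ)
  have hd : 0 < δ * δ := mul_pos h0 h0
  set R1 := Rg _ _ (-(δ * δ)) _
  set R2 := Rg _ _ (-δ - δ * δ) _
  rw [volQ (by positivity)] at v1 v2
  have sub : B n (2 + δ) ⊆ B n 2 ∪ R1 ∪ R2 := fun w a => by
    change ‖w.1‖ + |w.2| ≤ _ at a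
    by_cases b : ‖w.1‖ + |w.2| ≤ 2
    · exact .inl (.inl b)
    have c : w.1 ∈ closedBall (0 : Fin n → ℝ) (2 + δ) := by simp; linarith [abs_nonneg w.2]
    have := le_max_left (2 - ‖w.1‖) 0
    have : max (2 - ‖w.1‖) 0 ≤ |w.2| := max_le (by linarith) (abs_nonneg _)
    rcases abs_cases w.2 with e | e
    · exact .inl (.inr ⟨c, by linarith, by linarith⟩)
    · exact .inr ⟨c, by simp only [Pi.neg_apply]; linarith, by simp only [Pi.neg_apply]; linarith⟩
  have := (measure_mono (μ := volume) sub).trans ((measure_union_le _ _).trans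
    (add_le_add_left (measure_union_le _ _) _))
  rw [v1, v2, ← ENNReal.ofReal_toReal (bdd 2).measure_lt_top.ne,
    ← ENNReal.ofReal_toReal (bdd (2 + δ)).measure_lt_top.ne,
    show δ + δ * δ - -(δ * δ) = δ * (1 + 2 * δ) by ring,
    show δ * δ - (-δ - δ * δ) = δ * (1 + 2 * δ) by ring] at this
  simp (disch := positivity) only [← ENNReal.ofReal_mul, ← ENNReal.ofReal_add] at this
  rw [quot, add_B two_pos h0, EReal.coe_le_coe_iff, div_le_iff₀ h0]
  rw [ENNReal.ofReal_le_ofReal_iff (by positivity)] at this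
  simp only [Measure.real]
  linarith

lemma main (n : ℕ) : upper (B (n + 2) 1) ((2 : ℝ) • B (n + 2) 1) <
    lower (B (n + 2) 1) (A (n + 2) + B (n + 2) 1) := by
  obtain ⟨g, hg, hgv⟩ := volG n
  rw [smul_B two_pos]
  have hlim : Tendsto (fun δ : ℝ => 2 * (2 * (2 + δ)) ^ (n + 2) * (1 + 2 * δ)) (𝓝[>] 0)
      (𝓝 (2 * (2 * (2 + 0)) ^ (n + 2) * (1 + 2 * 0))) := by
    apply tendsto_nhdsWithin_of_tendsto_nhds
    exact Continuous.tendsto (by fun_prop) 0
  have hlt : (2 * (2 * (2 + 0)) ^ (n + 2) * (1 + 2 * 0) : ℝ) < 2 * 4 ^ (n + 2) + g / 2 := by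
    norm_num
    linarith
  have hev := hlim.eventually (gt_mem_nhds hlt)
  refine lt_of_le_of_lt (limsup_le_of_le (by isBoundedDefault) ?_) (lt_of_lt_of_le
    (EReal.coe_lt_coe_iff.2 (by linarith : (2 * 4 ^ (n + 2) + g / 2 : ℝ) < 2 * 4 ^ (n + 2) + g))
    (le_liminf_of_le (by isBoundedDefault) ?_))
  · filter_upwards [hev, self_mem_nhdsWithin] with δ h1 h2
    exact (up h2).trans (EReal.coe_le_coe_iff.2 h1.le)
  · filter_upwards [Ioc_mem_nhdsGT (by norm_num : (0 : ℝ) < 1 / 5)] with δ h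
    exact low hg hgv h.1 h.2

/-! ### The transfer to `ℝ^d` -/

/-- `ℝ^(n+1) = ℝ^n × ℝ`. -/
def T (n : ℕ) : (Fin (n + 1) → ℝ) ≃ₗ[ℝ] E n where
  toFun x := (fun j => x j.succ, x 0)
  invFun w := Fin.cons w.2 w.1
  map_add' x y := rfl
  map_smul' c x := rfl
  left_inv x := by
    funext j
    refine Fin.cases ?_ (fun j => ?_) j <;> simp
  right_inv w := by simp

lemma vol_T (S : Set (E n)) : volume (T n ⁻¹' S) = volume S := by
  have h1 := volume_preserving_piFinSuccAbove (fun _ : Fin (n + 1) => ℝ) 0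
  have h2 : MeasurePreserving (MeasurableEquiv.prodComm : ℝ × (Fin n → ℝ) ≃ᵐ _) volume volume :=
    Measure.measurePreserving_swap
  have h3 : MeasurePreserving ((MeasurableEquiv.piFinSuccAbove (fun _ : Fin (n + 1) => ℝ) 0).trans
      MeasurableEquiv.prodComm) volume volume := h2.comp h1
  exact h3.measure_preimage_equiv S

lemma T_quot (K S : Set (E n)) (δ : ℝ) :
    quot (T n ⁻¹' K) (T n ⁻¹' S) δ = quot K S δ := by
  have h1 : T n ⁻¹' S + δ • (T n ⁻¹' K) = T n ⁻¹' (S + δ • K) := by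
    rw [← LinearEquiv.image_symm_eq_preimage, ← LinearEquiv.image_symm_eq_preimage,
      ← LinearEquiv.image_symm_eq_preimage, image_add, image_smul_set]
  unfold quot
  rw [h1, measureReal_def, measureReal_def, measureReal_def, measureReal_def, vol_T, vol_T]

lemma T_cont (m : ℕ) : Continuous (T m) := (T m).toContinuousLinearEquiv.continuous

lemma T_interior (m : ℕ) : (interior (T m ⁻¹' B m 1)).Nonempty := by
  have hopen : IsOpen {w : E m | ‖w.1‖ + |w.2| < 1} := isOpen_lt (by fun_prop) continuous_const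
  have hopen' : IsOpen (T m ⁻¹' {w : E m | ‖w.1‖ + |w.2| < 1}) := hopen.preimage (T_cont m)
  refine ⟨0, mem_interior.2 ⟨_, ?_, hopen', ?_⟩⟩
  · intro x hx
    have hx' : ‖(T m x).1‖ + |(T m x).2| < 1 := hx
    exact hx'.le
  · change ‖(T m 0).1‖ + |(T m 0).2| < 1
    simp

lemma T_compact (m : ℕ) : IsCompact (T m ⁻¹' B m 1) := by
  have hcl : IsClosed (B m 1) := isClosed_le (by fun_prop) continuous_const
  have hcomp : IsCompact (B m 1) := isCompact_of_isClosed_isBounded hcl (bdd 1)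
  rw [← LinearEquiv.image_symm_eq_preimage]
  exact hcomp.image (T m).toContinuousLinearEquiv.symm.continuous

lemma T_conv (m : ℕ) : Convex ℝ (T m ⁻¹' B m 1) := by
  intro x hx y hy a b ha hb e
  have h1 : T m (a • x + b • y) = a • T m x + b • T m y := by
    rw [map_add, map_smul, map_smul]
  change T m (a • x + b • y) ∈ B m 1
  rw [h1]
  exact conv hx hy ha hb e

lemma T_neg (m : ℕ) : -(T m ⁻¹' B m 1) = T m ⁻¹' B m 1 := by
  ext x
  simp [B]

/-- The centres in `ℝ^(m+1)`. -/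
noncomputable def A' (m : ℕ) : Finset (Fin (m + 1) → ℝ) :=
  (A m).map ((T m).symm.toEquiv.toEmbedding)

lemma A'_eq (m : ℕ) : (A' m : Set (Fin (m + 1) → ℝ)) = T m ⁻¹' (A m : Set (E m)) := by
  rw [A', Finset.coe_map, ← LinearEquiv.image_symm_eq_preimage]
  rfl

lemma A'_zero (m : ℕ) : 0 ∈ A' m := by
  rw [← Finset.mem_coe, A'_eq]
  change T m 0 ∈ (A m : Set (E m))
  rw [map_zero]
  exact Finset.mem_coe.2 (mem_A.2 (.inl rfl))

lemma A'_sub (m : ℕ) : (A' m : Set (Fin (m + 1) → ℝ)) ⊆ T m ⁻¹' B m 1 := by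
  rw [A'_eq]
  apply preimage_mono
  intro c hc
  rcases mem_A.1 (Finset.mem_coe.1 hc) with rfl | rfl | ⟨s, rfl⟩
  · simp [B]
  · simp [B]
  · have : ‖sgn s‖ ≤ 1 := by
      refine (pi_norm_le_iff_of_nonneg zero_le_one).2 fun j => ?_
      rw [Real.norm_eq_abs, abs_sgn]
    simpa [B] using this

lemma T_main (n : ℕ) : upper (T (n + 2) ⁻¹' B (n + 2) 1) ((2 : ℝ) • (T (n + 2) ⁻¹' B (n + 2) 1)) <
    lower (T (n + 2) ⁻¹' B (n + 2) 1)
      ((A' (n + 2) : Set (Fin (n + 2 + 1) → ℝ)) + T (n + 2) ⁻¹' B (n + 2) 1) := by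
  have h1 : (2 : ℝ) • (T (n + 2) ⁻¹' B (n + 2) 1) = T (n + 2) ⁻¹' ((2 : ℝ) • B (n + 2) 1) := by
    rw [← LinearEquiv.image_symm_eq_preimage, ← LinearEquiv.image_symm_eq_preimage,
      image_smul_set]
  have h2 : T (n + 2) ⁻¹' (A (n + 2) : Set (E (n + 2))) + T (n + 2) ⁻¹' B (n + 2) 1
      = T (n + 2) ⁻¹' (A (n + 2) + B (n + 2) 1) := by
    rw [← LinearEquiv.image_symm_eq_preimage, ← LinearEquiv.image_symm_eq_preimage,
      ← LinearEquiv.image_symm_eq_preimage, image_add]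
  have h3 := main n
  unfold upper lower at h3 ⊢
  rw [A'_eq, h1, h2]
  have q1 : ∀ K S : Set (E (n + 2)), quot (T (n + 2) ⁻¹' K) (T (n + 2) ⁻¹' S) = quot K S :=
    fun K S => funext fun δ => T_quot K S δ
  rw [q1, q1]
  exact h3

/-- **Theorem.** In every dimension `d ≥ 3` the inequality fails: there are a compact convex centrally
symmetric set `K ⊆ ℝ^d` with nonempty interior and a finite set `A ⊆ K = K(0; 1)` containing `0` such
that the lower `K`-surface area of `A ⊕ K` is larger than the upper `K`-surface area of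
`K(0; 2) = 2 K`. -/
theorem result (d : ℕ) (hd : 3 ≤ d) : ∃ (K : Set (Fin d → ℝ)) (A : Finset (Fin d → ℝ)),
    IsCompact K ∧ Convex ℝ K ∧ (interior K).Nonempty ∧ -K = K ∧ 0 ∈ A ∧
    (A : Set (Fin d → ℝ)) ⊆ K ∧
    upper K ((2 : ℝ) • K) < lower K ((A : Set (Fin d → ℝ)) + K) := by
  obtain ⟨n, hn⟩ := Nat.exists_eq_add_of_le' hd
  have hn' : d = n + 2 + 1 := by omega
  subst hn'
  refine ⟨T (n + 2) ⁻¹' B (n + 2) 1, A' (n + 2), ?_, ?_, ?_, ?_, ?_, ?_, ?_⟩
  · exact T_compact (n + 2)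
  · exact T_conv (n + 2)
  · exact T_interior (n + 2)
  · exact T_neg (n + 2)
  · exact A'_zero (n + 2)
  · exact A'_sub (n + 2)
  · exact T_main n

end Pool.Agent.Results.MP_a80f1a_gt.AllDimensions
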